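import Mathlib

/-! An integral element: `h(θ) / m`, where `g(T) = g(r) + (T - r) h(T)`, `m ^ 2 ∣ g(r)` and `m ∣ g'(r)`. -/

set_option autoImplicit false

open NumberField Polynomial

namespace Pool.Agent.LibRC21

theorem beta_int4 (K : Type) [Field K] [NumberField K] (A x y : ℤ) (θ : K) (hint : IsIntegral ℤ θ)
    (hθ : θ ^ 4 - 6 * x * θ ^ 2 - 8 * y * θ - 3 * x ^ 2 - 4 * A = 0) (m : ℤ) (hm : m ≠ 0)
    (r c d : ℤ) (hd : r ^ 4 - 6 * x * r ^ 2 - 8 * y * r - 3 * x ^ 2 - 4 * A = m ^ 2 * d)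
    (hc : 4 * r ^ 3 - 12 * x * r - 8 * y = m * c) :
    IsIntegral ℤ ((θ ^ 3 + r * θ ^ 2 + (r ^ 2 - 6 * x) * θ + (r ^ 3 - 6 * x * r - 8 * y)) / m : K) := by
  have hm0 : (m : K) ≠ 0 := by exact_mod_cast hm
  have hi : ∀ z : ℤ, IsIntegral ℤ (z : K) := fun z => isIntegral_algebraMap (R := ℤ) (A := K) (x := z)
  obtain ⟨q, hq⟩ : ∃ q : K, q = d * (θ ^ 2 + 2 * r * θ + 3 * r ^ 2 - 6 * x) := ⟨_, rfl⟩
  have hqi : IsIntegral ℤ q := by
    rw [hq]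
    have h2 := hi 2
    have h3 := hi 3
    have h6 := hi 6
    push_cast at h2 h3 h6
    exact (hi d).mul ((((hint.pow 2).add ((h2.mul (hi r)).mul hint)).add (h3.mul ((hi r).pow 2))).sub
      (h6.mul (hi x)))
  obtain ⟨β, hβ⟩ : ∃ β : K, β = (θ ^ 3 + r * θ ^ 2 + (r ^ 2 - 6 * x) * θ +
    (r ^ 3 - 6 * x * r - 8 * y)) / m := ⟨_, rfl⟩
  rw [← hβ]
  have hmβ : m * β = θ ^ 3 + r * θ ^ 2 + (r ^ 2 - 6 * x) * θ + (r ^ 3 - 6 * x * r - 8 * y) := by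
    rw [hβ, mul_div_cancel₀ _ hm0]
  have hdK : (r : K) ^ 4 - 6 * x * r ^ 2 - 8 * y * r - 3 * x ^ 2 - 4 * A = m ^ 2 * d := by
    exact_mod_cast hd
  have hcK : 4 * (r : K) ^ 3 - 12 * x * r - 8 * y = m * c := by exact_mod_cast hc
  have key : β ^ 2 - c * β + q = 0 := by
    have h1 : (m : K) ^ 2 * (β ^ 2 - c * β + q) = 0 := by
      have h2 : (m : K) ^ 2 * (β ^ 2 - c * β + q) = (m * β) ^ 2 - (m * c) * (m * β) +
          (m ^ 2 * d) * (θ ^ 2 + 2 * r * θ + 3 * r ^ 2 - 6 * x) := by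
        rw [hq]
        ring
      rw [h2, hmβ, ← hdK, ← hcK]
      linear_combination (θ ^ 2 + 2 * r * θ + 3 * r ^ 2 - 6 * x) * hθ
    exact (mul_eq_zero.1 h1).resolve_left (pow_ne_zero 2 hm0)
  have hS : IsIntegral (integralClosure ℤ K) β := by
    refine ⟨X ^ 2 - C (⟨(c : K), hi c⟩ : integralClosure ℤ K) * X + C (⟨q, hqi⟩ : integralClosure ℤ K),
      by monicity!, ?_⟩
    simp only [eval₂_add, eval₂_sub, eval₂_mul, eval₂_pow, eval₂_X, eval₂_C]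
    exact key
  exact isIntegral_trans β hS

end Pool.Agent.LibRC21
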