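import Mathlib

/-! The discriminant of the quartic. -/

set_option autoImplicit false

namespace Pool.Agent.LibRC21

theorem vdm4 (a b c t x y A B : ℂ) (v1 : a + b + c + t = 0)
    (v2 : a * b + a * c + a * t + b * c + b * t + c * t = -(6 * x))
    (v3 : a * b * c + a * b * t + a * c * t + b * c * t = 8 * y)
    (v4 : a * b * c * t = -(3 * x ^ 2 + 4 * A)) (hE : y ^ 2 = x ^ 3 + A * x + B) :
    ((b - a) * (c - a) * (t - a) * (c - b) * (t - b) * (t - c)) ^ 2 =
      -(4096 * (4 * A ^ 3 + 27 * B ^ 2)) := by
  have ht : t = -a - b - c := by linear_combination v1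
  have hx : x = -(a * b + a * c + a * t + b * c + b * t + c * t) / 6 := by
    linear_combination (1 / 6 : ℂ) * v2
  have hy : y = (a * b * c + a * b * t + a * c * t + b * c * t) / 8 := by
    linear_combination (-1 / 8 : ℂ) * v3
  have hA : A = -(a * b * c * t + 3 * x ^ 2) / 4 := by linear_combination (1 / 4 : ℂ) * v4
  have hB : B = y ^ 2 - x ^ 3 - A * x := by linear_combination -hE
  rw [hB, hA, hy, hx, ht]
  ring

end Pool.Agent.LibRC21
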