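import Mathlib

/-! The discriminant of a family of integers of a number field is a square times the discriminant. -/

set_option autoImplicit false

open NumberField Polynomial

namespace Pool.Agent.LibRC21

theorem disc_basis_eq (K : Type) [Field K] [NumberField K] (n : ℕ) (e : Fin n ≃ (K →+* ℂ)) (b : Fin n → K)
    (hb : ∀ i, IsIntegral ℤ (b i)) :
    ∃ z : ℤ, ((Matrix.of fun i j => e i (b j)).det) ^ 2 = (z : ℂ) ^ 2 * ((discr K : ℤ) : ℂ) := by
  classical
  set e' : Fin n ≃ (K →ₐ[ℚ] ℂ) := e.trans (RingHom.equivRatAlgHom K ℂ) with he'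
  have hn : n = Module.finrank ℚ K := by
    rw [← NumberField.Embeddings.card K ℂ, ← Fintype.card_fin n]
    exact Fintype.card_congr e
  have hcard : Fintype.card (Module.Free.ChooseBasisIndex ℤ (𝓞 K)) = n := by
    rw [← Module.finrank_eq_card_chooseBasisIndex, RingOfIntegers.rank, hn]
  let g : Module.Free.ChooseBasisIndex ℤ (𝓞 K) ≃ Fin n := Fintype.equivFinOfCardEq hcard
  let B : Module.Basis (Fin n) ℚ K := (integralBasis K).reindex g
  let o : Fin n → 𝓞 K := fun i => ⟨b i, hb i⟩
  let P' : Matrix (Fin n) (Fin n) ℤ :=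
    Matrix.of fun i j => (RingOfIntegers.basis K).repr (o i) (g.symm j)
  have hB : Algebra.discr ℚ B = (discr K : ℚ) := by
    rw [coe_discr]
    have : (B : Fin n → K) = (integralBasis K) ∘ g.symm := Module.Basis.coe_reindex _ _
    rw [this]
    exact Algebra.discr_reindex ℚ (integralBasis K) g
  have hvec : Matrix.mulVec ((P'.map (algebraMap ℤ ℚ)).map (algebraMap ℚ K)) B = b := by
    funext i
    have h1 : ∀ j, (P'.map (algebraMap ℤ ℚ)) i j = B.repr (b i) j := by
      intro j
      have h2 : b i = algebraMap (𝓞 K) K (o i) := rfl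
      rw [h2, Module.Basis.repr_reindex_apply, integralBasis_repr_apply]
      rfl
    rw [Matrix.mulVec, dotProduct]
    calc ∑ j, ((P'.map (algebraMap ℤ ℚ)).map (algebraMap ℚ K)) i j * B j
        = ∑ j, B.repr (b i) j • B j := by
          apply Finset.sum_congr rfl
          intro j _
          rw [Matrix.map_apply, h1, Algebra.smul_def]
      _ = b i := B.sum_repr _
  have hdisc : Algebra.discr ℚ b =
      ((P'.map (algebraMap ℤ ℚ)).det) ^ 2 * (discr K : ℚ) := by
    rw [← hvec, Algebra.discr_of_matrix_mulVec, hB]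
  have hdet' : (P'.map (algebraMap ℤ ℚ)).det = (P'.det : ℚ) :=
    (RingHom.map_det (algebraMap ℤ ℚ) P').symm
  have hemb : algebraMap ℚ ℂ (Algebra.discr ℚ b) =
      ((Matrix.of fun i j => e i (b j)).det) ^ 2 := by
    rw [Algebra.discr_eq_det_embeddingsMatrixReindex_pow_two ℚ ℂ _ e']
    have : Algebra.embeddingsMatrixReindex ℚ ℂ b e' =
        (Matrix.of fun i j => e i (b j)).transpose := by
      ext i j
      simp [Algebra.embeddingsMatrixReindex, Algebra.embeddingsMatrix, he']
    rw [this, Matrix.det_transpose]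
  refine ⟨P'.det, ?_⟩
  rw [← hemb, hdisc, hdet', map_mul, map_pow]
  simp

end Pool.Agent.LibRC21
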