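import Pool.Agent.LibRC21A.A1
import Pool.Agent.LibRC21A.A2
import Pool.Agent.LibRC21A.A3
import Pool.Agent.LibRC21A.B1
import Pool.Agent.LibSQ55.Q2
import Pool.Agent.LibST91T.TX2

/-! The discriminant of the quartic is `m ^ 2` times a square times the discriminant of the field. -/

set_option autoImplicit false

open NumberField Polynomial

namespace Pool.Agent.LibRC21

private theorem b2_inj (K : Type) [Field K] [NumberField K] (ω : K)
    (hdeg : (minpoly ℚ ω).natDegree = Module.finrank ℚ K) (n : ℕ) (e : Fin n ≃ (K →+* ℂ)) :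
    Function.Injective (fun i => e i ω) := by
  set e' : Fin n ≃ (K →ₐ[ℚ] ℂ) := e.trans (RingHom.equivRatAlgHom K ℂ) with he'
  have htop := (Field.primitive_element_iff_minpoly_natDegree_eq ℚ ω).2 hdeg
  have h := (Field.primitive_element_iff_algHom_eq_of_eval' ℚ ℂ
    (fun x => IsAlgClosed.splits _) ω).1 htop
  intro i j hij
  exact e'.injective (h (by simpa [he'] using hij))

theorem discr_quart_eq (K : Type) [Field K] [NumberField K] (A B x y m : ℤ)
    (hE : y ^ 2 = x ^ 3 + A * x + B) (hm0 : m ≠ 0)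
    (hm : m ^ 2 ∣ 4 * A ^ 3 + 27 * B ^ 2) (hc : IsCoprime m (2 * A * (2 * A * x + 3 * B)))
    (hirr : Irreducible ((SQ55.gq A x y).map (algebraMap ℤ ℚ)))
    (hd : Module.finrank ℚ K = 4) (θ : K) (hθ : aeval θ (SQ55.gq A x y) = 0) :
    ∃ z : ℤ, -(4096 * (4 * A ^ 3 + 27 * B ^ 2)) = m ^ 2 * z ^ 2 * discr K := by
  have hmon := SQ55.gq_monic A x y
  have hdegf := SQ55.gq_natDegree A x y
  have hint : IsIntegral ℤ θ := ⟨SQ55.gq A x y, hmon, by rw [← aeval_def]; exact hθ⟩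
  have hθ' : θ ^ 4 - 6 * x * θ ^ 2 - 8 * y * θ - 3 * x ^ 2 - 4 * A = 0 := by
    have h1 := hθ
    unfold SQ55.gq at h1
    rw [aeval_def] at h1
    simp only [eval₂_sub, eval₂_mul, eval₂_pow, eval₂_X, eval₂_C, algebraMap_int_eq] at h1
    simp only [eq_intCast] at h1
    push_cast at h1
    linear_combination h1
  have hmin : (minpoly ℚ θ).natDegree = Module.finrank ℚ K := by
    have h1 : aeval θ ((SQ55.gq A x y).map (algebraMap ℤ ℚ)) = 0 := by
      rw [aeval_map_algebraMap, hθ]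
    rw [← minpoly.eq_of_irreducible_of_monic hirr h1 (hmon.map _), hmon.natDegree_map, hd, hdegf]
  have hcard : Fintype.card (K →+* ℂ) = 4 := by rw [NumberField.Embeddings.card, hd]
  have e : Fin 4 ≃ (K →+* ℂ) := (Fintype.equivFinOfCardEq hcard).symm
  have hinj := b2_inj K θ hmin 4 e
  obtain ⟨r, ⟨d, hr1⟩, ⟨c, hr2⟩⟩ := exists_r A B x y m hE hm hc
  have hmC : (m : ℂ) ≠ 0 := by exact_mod_cast hm0
  have hβ := beta_int4 K A x y θ hint hθ' m hm0 r c d hr1 hr2
  have hb : ∀ i, IsIntegral ℤ ((![1, θ, θ ^ 2, (θ ^ 3 + r * θ ^ 2 + (r ^ 2 - 6 * x) * θ +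
      (r ^ 3 - 6 * x * r - 8 * y)) / m] : Fin 4 → K) i) := by
    intro i
    fin_cases i
    · exact isIntegral_one
    · exact hint
    · exact hint.pow 2
    · exact hβ
  have hdetv : (Matrix.of fun i j => e i ((![1, θ, θ ^ 2, (θ ^ 3 + r * θ ^ 2 +
      (r ^ 2 - 6 * x) * θ + (r ^ 3 - 6 * x * r - 8 * y)) / m] : Fin 4 → K) j)).det =
      (e 1 θ - e 0 θ) * (e 2 θ - e 0 θ) * (e 3 θ - e 0 θ) * (e 2 θ - e 1 θ) * (e 3 θ - e 1 θ) *
        (e 3 θ - e 2 θ) / m := by
    rw [Matrix.det_succ_row_zero]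
    simp only [Matrix.det_fin_three, Fin.sum_univ_four]
    simp only [Matrix.of_apply, Matrix.submatrix_apply, Fin.succAbove, Matrix.cons_val_zero,
      Matrix.cons_val_one, Matrix.cons_val, map_one, map_div₀, map_natCast, map_sub, map_add,
      map_mul, map_pow, map_intCast, map_ofNat]
    simp [Fin.succAbove, Fin.lt_def]
    have o6 : ∀ i, (e i) (6 : K) = 6 := fun i => map_ofNat _ 6
    have o8 : ∀ i, (e i) (8 : K) = 8 := fun i => map_ofNat _ 8
    simp only [o6, o8]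
    field_simp
    ring
  obtain ⟨z, hle⟩ := disc_basis_eq K 4 e _ hb
  rw [hdetv] at hle
  have hnod := Pool.Agent.LibST91.map_eq_nodal 4 (SQ55.gq A x y) hmon hdegf (fun i => e i θ) hinj (by
    intro i
    rw [SQ55.gq_aeval]
    have h1 := congrArg (e i) hθ'
    simp only [map_add, map_sub, map_mul, map_pow, map_ofNat, map_intCast, map_zero] at h1
    exact h1)
  have hT : ∀ T : ℂ, T ^ 4 - (6 * x) * T ^ 2 - (8 * y) * T - (3 * x ^ 2 + 4 * A) =
      (T - e 0 θ) * (T - e 1 θ) * (T - e 2 θ) * (T - e 3 θ) := by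
    intro T
    have h1 := congrArg (eval T) hnod
    rw [Lagrange.eval_nodal, Fin.prod_univ_four, eval_map_algebraMap, SQ55.gq_aeval] at h1
    rw [← h1]
    ring
  obtain ⟨v1, v2, v3, v4⟩ := SQ55.vieta4 hT
  have hEC : (y : ℂ) ^ 2 = (x : ℂ) ^ 3 + A * x + B := by exact_mod_cast hE
  have key := vdm4 (e 0 θ) (e 1 θ) (e 2 θ) (e 3 θ) x y A B v1 v2 v3 v4 hEC
  rw [div_pow, key, div_eq_iff (pow_ne_zero 2 hmC)] at hle
  refine ⟨z, ?_⟩
  have h1 : ((-(4096 * (4 * A ^ 3 + 27 * B ^ 2)) : ℤ) : ℂ) = ((m ^ 2 * z ^ 2 * discr K : ℤ) : ℂ) := by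
    push_cast
    linear_combination hle
  exact_mod_cast h1

end Pool.Agent.LibRC21
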