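import Mathlib

/-!
The discriminant of a number field generated by a root of an irreducible polynomial.
-/

set_option autoImplicit false

open NumberField Polynomial

namespace Pool.Agent.LibRC21

theorem discr_eq_of_root (f : ℤ[X]) (hf : f.Monic) (hirr : Irreducible (f.map (algebraMap ℤ ℚ)))
    (K : Type) [Field K] [NumberField K] (t : K) (ht : IntermediateField.adjoin ℚ {t} = ⊤)
    (hft : aeval t f = 0) (K' : Type) [Field K'] [NumberField K'] (t' : K')
    (hd : Module.finrank ℚ K' = f.natDegree) (hft' : aeval t' f = 0) : discr K = discr K' := by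
  have m1 : f.map (algebraMap ℤ ℚ) = minpoly ℚ t :=
    minpoly.eq_of_irreducible_of_monic hirr (by rw [aeval_map_algebraMap, hft]) (hf.map _)
  have m2 : f.map (algebraMap ℤ ℚ) = minpoly ℚ t' :=
    minpoly.eq_of_irreducible_of_monic hirr (by rw [aeval_map_algebraMap, hft']) (hf.map _)
  have i1 : IsIntegral ℚ t := Algebra.IsIntegral.isIntegral t
  have i2 : IsIntegral ℚ t' := Algebra.IsIntegral.isIntegral t'
  have ht' : IntermediateField.adjoin ℚ {t'} = ⊤ :=
    (Field.primitive_element_iff_minpoly_natDegree_eq ℚ t').2 (by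
      rw [← m2, hf.natDegree_map, hd])
  have a1 : Algebra.adjoin ℚ {t} = ⊤ := by
    rw [← IntermediateField.adjoin_simple_toSubalgebra_of_isAlgebraic i1.isAlgebraic, ht,
      IntermediateField.top_toSubalgebra]
  have a2 : Algebra.adjoin ℚ {t'} = ⊤ := by
    rw [← IntermediateField.adjoin_simple_toSubalgebra_of_isAlgebraic i2.isAlgebraic, ht',
      IntermediateField.top_toSubalgebra]
  have e : K ≃ₐ[ℚ] K' := PowerBasis.equivOfMinpoly (PowerBasis.ofAdjoinEqTop i1 a1)
    (PowerBasis.ofAdjoinEqTop i2 a2) (by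
      rw [PowerBasis.ofAdjoinEqTop_gen, PowerBasis.ofAdjoinEqTop_gen, ← m1, ← m2])
  exact discr_eq_discr_of_algEquiv K e

end Pool.Agent.LibRC21
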