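import Pool.Agent.LibRC21A.A7
import Pool.Agent.LibRC21A.A8

/-!
The final bound: with the discriminant of the curve, with its square part removed, and with the
discriminant of the quartic field.
-/

set_option autoImplicit false

open NumberField Polynomial

namespace Pool.Agent.LibRC21

open Pool.Agent.LibST91 SQ55

private theorem gq_root_iff (A x y : ℤ) (K : Type) [Field K] [NumberField K] (t : K) :
    aeval t (gq A x y) = t ^ 4 - 6 * x * t ^ 2 - 8 * y * t - 3 * x ^ 2 - 4 * A := by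
  unfold gq
  rw [aeval_def]
  simp only [eval₂_sub, eval₂_mul, eval₂_pow, eval₂_X, eval₂_C, algebraMap_int_eq]
  simp only [eq_intCast]
  push_cast
  ring

private theorem flip_abs (A x y : ℤ) (K : Type) [Field K] [NumberField K]
    (hfr : Module.finrank ℚ K = 4) (hirr : Irreducible ((gq A x |y|).map (algebraMap ℤ ℚ)))
    (hroot : ∃ θ : K, aeval θ (gq A x |y|) = 0) :
    Irreducible ((gq A x y).map (algebraMap ℤ ℚ)) ∧ ∃ θ : K, aeval θ (gq A x y) = 0 := by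
  rcases le_total 0 y with hy | hy
  · rw [abs_of_nonneg hy] at hirr hroot
    exact ⟨hirr, hroot⟩
  · rw [abs_of_nonpos hy] at hirr hroot
    obtain ⟨θ, hθ⟩ := hroot
    have hθ' : aeval (-θ) (gq A x y) = 0 := by
      rw [gq_root_iff] at hθ ⊢
      push_cast at hθ
      linear_combination hθ
    refine ⟨?_, ⟨-θ, hθ'⟩⟩
    have hmon := gq_monic A x (-y)
    have hmon' := gq_monic A x y
    have m1 : (gq A x (-y)).map (algebraMap ℤ ℚ) = minpoly ℚ θ :=
      minpoly.eq_of_irreducible_of_monic hirr (by rw [aeval_map_algebraMap, hθ]) (hmon.map _)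
    have htop : IntermediateField.adjoin ℚ {θ} = ⊤ :=
      (Field.primitive_element_iff_minpoly_natDegree_eq ℚ θ).2 (by
        rw [← m1, hmon.natDegree_map, gq_natDegree, hfr])
    have htop' : IntermediateField.adjoin ℚ {-θ} = ⊤ := by
      rw [eq_top_iff, ← htop, IntermediateField.adjoin_simple_le_iff]
      have h1 : -θ ∈ IntermediateField.adjoin ℚ {-θ} := IntermediateField.mem_adjoin_simple_self ℚ (-θ)
      have h2 := neg_mem h1
      rwa [neg_neg] at h2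
    have hdeg := (Field.primitive_element_iff_minpoly_natDegree_eq ℚ (-θ)).1 htop'
    have i2 : IsIntegral ℚ (-θ) := Algebra.IsIntegral.isIntegral (-θ)
    have h3 : (gq A x y).map (algebraMap ℤ ℚ) = minpoly ℚ (-θ) := by
      refine eq_of_monic_of_dvd_of_natDegree_le (minpoly.monic i2) (hmon'.map _) ?_ ?_
      · exact minpoly.dvd ℚ (-θ) (by rw [aeval_map_algebraMap, hθ'])
      · rw [hmon'.natDegree_map, gq_natDegree, hdeg, hfr]
    rw [h3]
    exact minpoly.irreducible i2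

/-- Small points and large points. -/
theorem weier_key (hX : MainX 4 9) : ∃ C : ℝ, 0 ≤ C ∧ ∃ κ : ℕ, ∀ (A B x y : ℤ),
    4 * A ^ 3 + 27 * B ^ 2 ≠ 0 → y ^ 2 = x ^ 3 + A * x + B →
    Real.log (max |(x : ℝ)| |(y : ℝ)|) ≤ 60 * Real.log (2 + |(A : ℝ)| + |(B : ℝ)|) ∨
    ∃ (K : Type) (_ : Field K) (_ : NumberField K), Module.finrank ℚ K = 4 ∧
      Irreducible ((gq A x y).map (algebraMap ℤ ℚ)) ∧ (∃ θ : K, aeval θ (gq A x y) = 0) ∧
      Real.log (max |(x : ℝ)| |(y : ℝ)|) ≤ C * √|(discr K : ℝ)| *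
        Real.log (2 + |(A : ℝ)| + |(B : ℝ)|) ^ κ := by
  obtain ⟨C, hC, κ, hbig⟩ := weier_bigK hX
  refine ⟨4 * C, by positivity, κ, fun A B x y hΔ hE => ?_⟩
  obtain ⟨R, hR⟩ : ∃ R, R = 1 + |(A : ℝ)| + |(B : ℝ)| := ⟨_, rfl⟩
  obtain ⟨L, hL⟩ : ∃ L, L = Real.log (2 + |(A : ℝ)| + |(B : ℝ)|) := ⟨_, rfl⟩
  obtain ⟨hR2, hL1, hlogR, hd1, -⟩ := basic hR hL hΔ
  have hA := abs_nonneg (A : ℝ)
  have hB := abs_nonneg (B : ℝ)
  have h5 : |(A : ℝ)| ≤ R := by linarith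
  have h6 : |(B : ℝ)| ≤ R := by linarith
  rw [← hL]
  have hER : (y : ℝ) ^ 2 = (x : ℝ) ^ 3 + A * x + B := by exact_mod_cast hE
  by_cases hx : |(x : ℝ)| ≤ 10000 * R ^ 4
  · exact Or.inl (weier_small hR hL hΔ hx hE)
  · push Not at hx
    have hR4 : R ≤ R ^ 4 := by
      calc R = R ^ 1 := (pow_one R).symm
        _ ≤ R ^ 4 := pow_le_pow_right₀ (by linarith) (by norm_num)
    have hxR : R < |(x : ℝ)| := by linarith
    have hx0 : 0 < (x : ℝ) := by
      by_contra hcon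
      push Not at hcon
      rw [abs_of_nonpos hcon] at hxR
      obtain ⟨z, hz⟩ : ∃ z : ℝ, z = -(x : ℝ) := ⟨_, rfl⟩
      rw [← hz] at hxR
      have hxz : (x : ℝ) = -z := by rw [hz]; ring
      rw [hxz] at hER
      have h7 : -((A : ℝ) * z) ≤ |(A : ℝ)| * z := by
        have := neg_abs_le (A : ℝ)
        have hz0 : 0 ≤ z := by linarith
        nlinarith
      have h8 : (B : ℝ) ≤ |(B : ℝ)| * z := by
        have := le_abs_self (B : ℝ)
        have hz1 : 1 ≤ z := by linarith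
        nlinarith
      have h9 : z ^ 3 ≤ (R - 1) * z := by
        have := sq_nonneg (y : ℝ)
        have h10 : R - 1 = |(A : ℝ)| + |(B : ℝ)| := by rw [hR]; ring
        rw [h10]
        nlinarith
      have h10 : z ^ 2 ≤ R - 1 := by
        have hz0 : 0 < z := by linarith
        have : z ^ 2 * z ≤ (R - 1) * z := by linarith
        exact le_of_mul_le_mul_right this hz0
      nlinarith
    rw [abs_of_pos hx0] at hx hxR
    obtain ⟨r, hr⟩ : ∃ r, r = √(x : ℝ) := ⟨_, rfl⟩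
    have hrx : r ^ 2 = (x : ℝ) := by rw [hr]; exact Real.sq_sqrt hx0.le
    have hr0 : 0 ≤ r := by rw [hr]; positivity
    have hr100 : 100 * R ^ 2 ≤ r := by
      have h1 : (100 * R ^ 2) ^ 2 ≤ r ^ 2 := by
        rw [hrx]
        calc (100 * R ^ 2) ^ 2 = 10000 * R ^ 4 := by ring
          _ ≤ (x : ℝ) := hx.le
      exact le_of_pow_le_pow_left₀ (by norm_num) hr0 h1
    obtain ⟨K, iK, iN, hfr, hirr, hroot, h1⟩ := hbig A B x |y| R r L hR hL hr0 hrx hr100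
      (abs_nonneg y) (by rw [sq_abs]; exact hE) hΔ
    obtain ⟨hirr', hroot'⟩ := flip_abs A x y K hfr hirr hroot
    have hr1 : 1 ≤ r := by nlinarith
    have hr1' : 0 < r := by linarith
    have hRx : R ≤ (x : ℝ) := hxR.le
    have hx3 : 3 ≤ (x : ℝ) := by nlinarith
    have hyx : |(y : ℝ)| ≤ r ^ 4 := by
      have h2 : |(y : ℝ)| ^ 2 ≤ (r ^ 4) ^ 2 := by
        rw [sq_abs, hER]
        have e1 : (r ^ 4) ^ 2 = (x : ℝ) ^ 4 := by
          rw [← hrx]
          ring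
        rw [e1]
        have e2 : (A : ℝ) * x ≤ x ^ 2 := by
          have := (le_abs_self (A : ℝ)).trans (h5.trans hRx)
          nlinarith
        have e3 : (B : ℝ) ≤ x := (le_abs_self (B : ℝ)).trans (h6.trans hRx)
        have e4 : (x : ℝ) ^ 2 ≤ x ^ 3 := pow_le_pow_right₀ (by linarith) (by norm_num)
        have e5 : (x : ℝ) ≤ x ^ 3 := by
          calc (x : ℝ) = x ^ 1 := (pow_one _).symm
            _ ≤ x ^ 3 := pow_le_pow_right₀ (by linarith) (by norm_num)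
        have e6 : 3 * (x : ℝ) ^ 3 ≤ x ^ 4 := by
          calc 3 * (x : ℝ) ^ 3 ≤ (x : ℝ) * (x : ℝ) ^ 3 := by gcongr
            _ = (x : ℝ) ^ 4 := by ring
        linarith
      exact le_of_pow_le_pow_left₀ (by norm_num) (by positivity) h2
    have hxx : |(x : ℝ)| ≤ r ^ 4 := by
      rw [abs_of_pos hx0, ← hrx]
      exact pow_le_pow_right₀ hr1 (by norm_num)
    have hmax : max |(x : ℝ)| |(y : ℝ)| ≤ r ^ 4 := max_le hxx hyx
    have hmax0 : 0 < max |(x : ℝ)| |(y : ℝ)| := lt_max_of_lt_left (abs_pos.2 hx0.ne')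
    have h3 := Real.log_le_log hmax0 hmax
    rw [Real.log_pow] at h3
    push_cast at h3
    have h7 : Real.log (max |(x : ℝ)| |(y : ℝ)|) ≤ 4 * C * √|(discr K : ℝ)| * L ^ κ := by
      calc Real.log (max |(x : ℝ)| |(y : ℝ)|) ≤ 4 * Real.log r := h3
        _ ≤ 4 * (C * (√|(discr K : ℝ)| * L ^ κ)) := by linarith
        _ = 4 * C * √|(discr K : ℝ)| * L ^ κ := by ring
    exact Or.inr ⟨K, iK, iN, hfr, hirr', hroot', h7⟩

theorem weier_final (hX : MainX 4 9) : ∃ C : ℝ, 0 < C ∧ ∃ κ : ℕ, ∀ A B x y : ℤ,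
    4 * A ^ 3 + 27 * B ^ 2 ≠ 0 → y ^ 2 = x ^ 3 + A * x + B →
    (Real.log (max |(x : ℝ)| |(y : ℝ)|) ≤ C * √|((4 * A ^ 3 + 27 * B ^ 2 : ℤ) : ℝ)| *
      Real.log (2 + |(A : ℝ)| + |(B : ℝ)|) ^ κ) ∧
    (∀ m : ℤ, m ^ 2 ∣ 4 * A ^ 3 + 27 * B ^ 2 → IsCoprime m (2 * A * (2 * A * x + 3 * B)) →
      Real.log (max |(x : ℝ)| |(y : ℝ)|) ≤
        C * (√|((4 * A ^ 3 + 27 * B ^ 2 : ℤ) : ℝ)| / |(m : ℝ)|) *
          Real.log (2 + |(A : ℝ)| + |(B : ℝ)|) ^ κ) ∧
    (∀ (K : Type) [Field K] [NumberField K] (t : K), IntermediateField.adjoin ℚ {t} = ⊤ →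
      t ^ 4 - 6 * x * t ^ 2 - 8 * y * t - 3 * x ^ 2 - 4 * A = 0 →
      Real.log (max |(x : ℝ)| |(y : ℝ)|) ≤ C * √|(discr K : ℝ)| *
        Real.log (2 + |(A : ℝ)| + |(B : ℝ)|) ^ κ) := by
  obtain ⟨C, hC, κ, hkey⟩ := weier_key hX
  refine ⟨64 * C + 60, by positivity, κ + 1, fun A B x y hΔ hE => ?_⟩
  obtain ⟨R, hR⟩ : ∃ R, R = 1 + |(A : ℝ)| + |(B : ℝ)| := ⟨_, rfl⟩
  obtain ⟨L, hL⟩ : ∃ L, L = Real.log (2 + |(A : ℝ)| + |(B : ℝ)|) := ⟨_, rfl⟩
  obtain ⟨hR2, hL1, hlogR, hd1, -⟩ := basic hR hL hΔ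
  have hk := hkey A B x y hΔ hE
  rw [← hL] at hk ⊢
  have hLκ : L ≤ L ^ (κ + 1) := by
    calc L = L ^ 1 := (pow_one L).symm
      _ ≤ L ^ (κ + 1) := pow_le_pow_right₀ hL1 (by omega)
  have hLκ' : L ^ κ ≤ L ^ (κ + 1) := pow_le_pow_right₀ hL1 (by omega)
  have hL0 : 0 ≤ L := by linarith
  -- from a number `s ≥ 1` with `√|D_K| ≤ 64 s`
  have hfin : ∀ s D : ℝ, 1 ≤ s → √D ≤ 64 * s → ∀ X : ℝ,
      X ≤ 60 * L ∨ X ≤ C * √D * L ^ κ → X ≤ (64 * C + 60) * s * L ^ (κ + 1) := by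
    intro s D hs hD X hX
    have h0 : 0 ≤ L ^ (κ + 1) := by positivity
    rcases hX with h | h
    · calc X ≤ 60 * L := h
        _ = 60 * 1 * L := by ring
        _ ≤ (64 * C + 60) * s * L ^ (κ + 1) := by
          have : 60 ≤ 64 * C + 60 := by linarith
          gcongr
    · calc X ≤ C * √D * L ^ κ := h
        _ ≤ C * (64 * s) * L ^ (κ + 1) := by gcongr
        _ = 64 * C * s * L ^ (κ + 1) := by ring
        _ ≤ (64 * C + 60) * s * L ^ (κ + 1) := by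
          have : 64 * C ≤ 64 * C + 60 := by linarith
          gcongr
  have hm : ∀ m : ℤ, m ^ 2 ∣ 4 * A ^ 3 + 27 * B ^ 2 → IsCoprime m (2 * A * (2 * A * x + 3 * B)) →
      Real.log (max |(x : ℝ)| |(y : ℝ)|) ≤
        (64 * C + 60) * (√|((4 * A ^ 3 + 27 * B ^ 2 : ℤ) : ℝ)| / |(m : ℝ)|) * L ^ (κ + 1) := by
    intro m hm hcm
    have hm0 : m ≠ 0 := by
      rintro rfl
      rw [zero_pow (by norm_num), zero_dvd_iff] at hm
      exact hΔ hm
    have hmR : 0 < |(m : ℝ)| := abs_pos.2 (by exact_mod_cast hm0)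
    obtain ⟨d, hd⟩ : ∃ d, d = |((4 * A ^ 3 + 27 * B ^ 2 : ℤ) : ℝ)| := ⟨_, rfl⟩
    have hd0 : 0 ≤ d := by rw [hd]; exact abs_nonneg _
    have hs1 : 1 ≤ √d / |(m : ℝ)| := by
      rw [le_div_iff₀ hmR, one_mul]
      apply Real.le_sqrt_of_sq_le
      rw [sq_abs, hd]
      obtain ⟨w, hw⟩ := hm
      have hw0 : w ≠ 0 := by
        rintro rfl
        rw [mul_zero] at hw
        exact hΔ hw
      rw [hw]
      push_cast
      have hm2 : 0 ≤ (m : ℝ) ^ 2 := by positivity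
      rw [abs_mul, abs_of_nonneg hm2]
      have : (1 : ℝ) ≤ |(w : ℝ)| := by exact_mod_cast Int.one_le_abs hw0
      nlinarith
    rw [← hd]
    rcases hk with h | ⟨K, iK, iN, hfr, hirr, ⟨θ, hθ⟩, h⟩
    · exact hfin _ 0 hs1 (by rw [Real.sqrt_zero]; linarith) _ (Or.inl h)
    · refine hfin _ |(discr K : ℝ)| hs1 ?_ _ (Or.inr h)
      have h1 := discr_quart K A B x y m hE hm0 hm hcm hirr hfr θ hθ
      rw [← hd] at h1
      rw [mul_div_assoc', le_div_iff₀ hmR]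
      have h2 : √|(discr K : ℝ)| * |(m : ℝ)| = √((m : ℝ) ^ 2 * |(discr K : ℝ)|) := by
        rw [Real.sqrt_mul (by positivity), Real.sqrt_sq_eq_abs, mul_comm]
      have h3 : 64 * √d = √(4096 * d) := by
        rw [Real.sqrt_mul (by norm_num), show (4096 : ℝ) = 64 ^ 2 by norm_num,
          Real.sqrt_sq (by norm_num)]
      rw [h2, h3]
      exact Real.sqrt_le_sqrt h1
  refine ⟨?_, hm, ?_⟩
  · have h1 := hm 1 (by simp) isCoprime_one_left
    simpa using h1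
  · intro K _ _ t htop ht
    have hD1 : 1 ≤ |(discr K : ℝ)| := by
      have := Int.one_le_abs (discr_ne_zero K)
      exact_mod_cast this
    have hs1 : 1 ≤ √|(discr K : ℝ)| := Real.one_le_sqrt.2 hD1
    rcases hk with h | ⟨K', iK', iN', hfr, hirr, ⟨θ, hθ⟩, h⟩
    · exact hfin _ 0 hs1 (by rw [Real.sqrt_zero]; linarith) _ (Or.inl h)
    · have h2 : discr K = discr K' := discr_eq_of_root (gq A x y) (gq_monic A x y) hirr K t htop
        (by rw [gq_root_iff]; exact ht) K' θ (by rw [hfr, gq_natDegree]) hθ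
      rw [h2] at hs1 ⊢
      exact hfin _ |(discr K' : ℝ)| hs1 (by linarith) _ (Or.inr h)

end Pool.Agent.LibRC21
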