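import Pool.Agent.LibST91T.TX2

/-! The field of the root, with the root. -/

set_option autoImplicit false

open NumberField Polynomial

namespace Pool.Agent.LibRC21

open Pool.Agent.LibST91

theorem field_eta_root4 (n : ℕ) (f : ℤ[X]) (hf : f.Monic) (hn : f.natDegree = n)
    (t : Fin n → ℂ) (ht : Function.Injective t) (hft : ∀ i, aeval (t i) f = 0) (i₀ : Fin n)
    (hs : ∀ i, i ≠ i₀ → ‖aeval (t i) (derivative f)‖ < 1) :
    ∃ (K : Type) (_ : Field K) (_ : NumberField K) (θ : 𝓞 K) (η : 𝓞 K),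
      Irreducible (f.map (algebraMap ℤ ℚ)) ∧ aeval θ f = 0 ∧
      Module.finrank ℚ K = n ∧ η ≠ 0 ∧
      ((Algebra.norm ℤ η : ℤ) : ℂ) = ∏ i, aeval (t i) (derivative f) ∧
      (∀ i, ∃ σ : K →+* ℂ, σ (η : K) = aeval (t i) (derivative f)) ∧
      (∀ φ : K →+* ℂ, ∃ i, φ (η : K) = aeval (t i) (derivative f)) := by
  have hirr := irr_of_small n f hf hn t ht hft i₀ hs
  obtain ⟨K, iK, iN, θ, h1, h2, h3, h4⟩ := field_setup f hf hirr
  have h7 : aeval θ f = 0 := by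
    have h := minpoly.aeval ℤ θ
    rwa [h2] at h
  have hne : (aeval θ (derivative f) : 𝓞 K) ≠ 0 := by
    intro h5
    obtain ⟨σ, hσ⟩ := h4 (t i₀) (hft i₀)
    have h6 := emb_aeval K θ σ (derivative f)
    rw [h5, hσ] at h6
    exact aeval_deriv_ne n f hf hn t ht hft i₀ (by rw [← h6]; simp)
  refine ⟨K, iK, iN, θ, aeval θ (derivative f), hirr, h7, h1.trans hn, hne, ?_, ?_, ?_⟩
  · exact norm_prod f n hn t ht hft K θ h1 h4 _
  · intro i
    obtain ⟨σ, hσ⟩ := h4 (t i) (hft i)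
    refine ⟨σ, ?_⟩
    rw [emb_aeval, hσ]
  · intro φ
    have h6 := emb_aeval K θ φ f
    rw [h7] at h6
    have h8 : aeval (φ (θ : K)) f = 0 := by rw [← h6]; simp
    obtain ⟨i, hi⟩ := root_mem n f hf hn t ht hft _ h8
    refine ⟨i, ?_⟩
    rw [emb_aeval, hi]

end Pool.Agent.LibRC21
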