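import Mathlib

/-! The double root modulo `m ^ 2` of the quartic `T ^ 4 - 6 x T ^ 2 - 8 y T - 3 x ^ 2 - 4 A`. -/

set_option autoImplicit false

namespace Pool.Agent.LibRC21

theorem exists_r (A B x y m : ℤ) (hE : y ^ 2 = x ^ 3 + A * x + B)
    (hm : m ^ 2 ∣ 4 * A ^ 3 + 27 * B ^ 2) (hc : IsCoprime m (2 * A * (2 * A * x + 3 * B))) :
    ∃ r : ℤ, m ^ 2 ∣ r ^ 4 - 6 * x * r ^ 2 - 8 * y * r - 3 * x ^ 2 - 4 * A ∧
      m ∣ 4 * r ^ 3 - 12 * x * r - 8 * y := by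
  have hcu : IsCoprime (m ^ 2) (2 * A * x + 3 * B) := (hc.of_mul_right_right).pow_left
  obtain ⟨a, b, hab⟩ := hcu
  obtain ⟨k, hk⟩ := hm
  have hcu' : IsCoprime (m ^ 2) (2 * A * x + 3 * B) := ⟨a, b, hab⟩
  obtain ⟨u, hu⟩ : ∃ u, u = 2 * A * x + 3 * B := ⟨_, rfl⟩
  rw [← hu] at hab hcu'
  obtain ⟨t, ht⟩ : ∃ t, t = a * (2 * A) * y := ⟨_, rfl⟩
  obtain ⟨r, hr⟩ : ∃ r, r = -(2 * A * b * y) := ⟨_, rfl⟩
  have hs : u * r = -(2 * A * y) + m ^ 2 * t := by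
    rw [hr, ht]
    linear_combination (-(2 * A * y)) * hab
  refine ⟨r, ?_, ?_⟩
  · have h1 : m ^ 2 ∣ u ^ 4 * (r ^ 4 - 6 * x * r ^ 2 - 8 * y * r - 3 * x ^ 2 - 4 * A) := by
      have e1 : u ^ 4 * (r ^ 4 - 6 * x * r ^ 2 - 8 * y * r - 3 * x ^ 2 - 4 * A) =
          (u * r) ^ 4 - 6 * x * (u * r) ^ 2 * u ^ 2 - 8 * y * (u * r) * u ^ 3 -
            (3 * x ^ 2 + 4 * A) * u ^ 4 := by ring
      rw [e1, hs]
      have e2 : (2 * A * y) ^ 4 - 6 * x * (2 * A * y) ^ 2 * u ^ 2 + 8 * y * (2 * A * y) * u ^ 3 -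
          (3 * x ^ 2 + 4 * A) * u ^ 4 = m ^ 2 * (k * (-9 * B ^ 2 * x ^ 2 - 8 * A * B * x ^ 3 +
            4 * A * B ^ 2 + 8 * A ^ 2 * B * x + 4 * A ^ 3 * x ^ 2)) := by
        have e3 : (2 * A * y) ^ 4 - 6 * x * (2 * A * y) ^ 2 * u ^ 2 + 8 * y * (2 * A * y) * u ^ 3 -
            (3 * x ^ 2 + 4 * A) * u ^ 4 = (2 * A) ^ 4 * (y ^ 2) ^ 2 -
            6 * x * (2 * A) ^ 2 * y ^ 2 * u ^ 2 + 8 * y ^ 2 * (2 * A) * u ^ 3 -
            (3 * x ^ 2 + 4 * A) * u ^ 4 := by ring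
        rw [e3, hE, hu]
        linear_combination (-9 * B ^ 2 * x ^ 2 - 8 * A * B * x ^ 3 +
            4 * A * B ^ 2 + 8 * A ^ 2 * B * x + 4 * A ^ 3 * x ^ 2) * hk
      refine ⟨k * (-9 * B ^ 2 * x ^ 2 - 8 * A * B * x ^ 3 +
            4 * A * B ^ 2 + 8 * A ^ 2 * B * x + 4 * A ^ 3 * x ^ 2) +
          t * ((-(2 * A * y) + m ^ 2 * t) ^ 3 - (-(2 * A * y) + m ^ 2 * t) ^ 2 * (2 * A * y) +
            (-(2 * A * y) + m ^ 2 * t) * (2 * A * y) ^ 2 - (2 * A * y) ^ 3) -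
          6 * x * u ^ 2 * t * ((-(2 * A * y) + m ^ 2 * t) - 2 * A * y) - 8 * y * u ^ 3 * t, ?_⟩
      linear_combination e2
    exact (hcu'.pow_right).dvd_of_dvd_mul_left h1
  · have hmm : m ∣ m ^ 2 := dvd_pow_self m (by norm_num)
    refine hmm.trans ?_
    have h1 : m ^ 2 ∣ u ^ 3 * (4 * r ^ 3 - 12 * x * r - 8 * y) := by
      have e1 : u ^ 3 * (4 * r ^ 3 - 12 * x * r - 8 * y) =
          4 * (u * r) ^ 3 - 12 * x * (u * r) * u ^ 2 - 8 * y * u ^ 3 := by ring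
      rw [e1, hs]
      have e2 : -(4 * (2 * A * y) ^ 3) + 12 * x * (2 * A * y) * u ^ 2 - 8 * y * u ^ 3 =
          m ^ 2 * (k * y * (-8 * B - 8 * A * x)) := by
        have e3 : -(4 * (2 * A * y) ^ 3) + 12 * x * (2 * A * y) * u ^ 2 - 8 * y * u ^ 3 =
            y * (-(4 * (2 * A) ^ 3 * y ^ 2) + 12 * x * (2 * A) * u ^ 2 - 8 * u ^ 3) := by ring
        rw [e3, hE, hu]
        linear_combination (y * (-8 * B - 8 * A * x)) * hk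
      refine ⟨k * y * (-8 * B - 8 * A * x) +
          4 * t * ((-(2 * A * y) + m ^ 2 * t) ^ 2 - (-(2 * A * y) + m ^ 2 * t) * (2 * A * y) +
            (2 * A * y) ^ 2) - 12 * x * u ^ 2 * t, ?_⟩
      linear_combination e2
    exact (hcu'.pow_right).dvd_of_dvd_mul_left h1

end Pool.Agent.LibRC21
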