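import Pool.Agent.LibRC21A.A1
import Pool.Agent.LibRC21A.A2
import Pool.Agent.LibRC21A.A3
import Pool.Agent.LibRC21.R3b
import Pool.Agent.LibSQ55.Q2
import Pool.Agent.LibST91T.TX2

/-! The discriminant of the quartic field. -/

set_option autoImplicit false

open NumberField Polynomial

namespace Pool.Agent.LibRC21

private theorem a4_inj (K : Type) [Field K] [NumberField K] (ω : K)
    (hdeg : (minpoly ℚ ω).natDegree = Module.finrank ℚ K) (n : ℕ) (e : Fin n ≃ (K →+* ℂ)) :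
    Function.Injective (fun i => e i ω) := by
  set e' : Fin n ≃ (K →ₐ[ℚ] ℂ) := e.trans (RingHom.equivRatAlgHom K ℂ) with he'
  have htop := (Field.primitive_element_iff_minpoly_natDegree_eq ℚ ω).2 hdeg
  have h := (Field.primitive_element_iff_algHom_eq_of_eval' ℚ ℂ
    (fun x => IsAlgClosed.splits _) ω).1 htop
  intro i j hij
  exact e'.injective (h (by simpa [he'] using hij))

theorem discr_quart (K : Type) [Field K] [NumberField K] (A B x y m : ℤ)
    (hE : y ^ 2 = x ^ 3 + A * x + B) (hm0 : m ≠ 0)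
    (hm : m ^ 2 ∣ 4 * A ^ 3 + 27 * B ^ 2) (hc : IsCoprime m (2 * A * (2 * A * x + 3 * B)))
    (hirr : Irreducible ((SQ55.gq A x y).map (algebraMap ℤ ℚ)))
    (hd : Module.finrank ℚ K = 4) (θ : K) (hθ : aeval θ (SQ55.gq A x y) = 0) :
    (m : ℝ) ^ 2 * |(discr K : ℝ)| ≤ 4096 * |((4 * A ^ 3 + 27 * B ^ 2 : ℤ) : ℝ)| := by
  have hmon := SQ55.gq_monic A x y
  have hdegf := SQ55.gq_natDegree A x y
  have hint : IsIntegral ℤ θ := ⟨SQ55.gq A x y, hmon, by rw [← aeval_def]; exact hθ⟩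
  have hθ' : θ ^ 4 - 6 * x * θ ^ 2 - 8 * y * θ - 3 * x ^ 2 - 4 * A = 0 := by
    have h1 := hθ
    unfold SQ55.gq at h1
    rw [aeval_def] at h1
    simp only [eval₂_sub, eval₂_mul, eval₂_pow, eval₂_X, eval₂_C, algebraMap_int_eq] at h1
    simp only [eq_intCast] at h1
    push_cast at h1
    linear_combination h1
  have hmin : (minpoly ℚ θ).natDegree = Module.finrank ℚ K := by
    have h1 : aeval θ ((SQ55.gq A x y).map (algebraMap ℤ ℚ)) = 0 := by
      rw [aeval_map_algebraMap, hθ]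
    rw [← minpoly.eq_of_irreducible_of_monic hirr h1 (hmon.map _), hmon.natDegree_map, hd, hdegf]
  have hcard : Fintype.card (K →+* ℂ) = 4 := by rw [NumberField.Embeddings.card, hd]
  have e : Fin 4 ≃ (K →+* ℂ) := (Fintype.equivFinOfCardEq hcard).symm
  have hinj := a4_inj K θ hmin 4 e
  obtain ⟨r, ⟨d, hr1⟩, ⟨c, hr2⟩⟩ := exists_r A B x y m hE hm hc
  have hmC : (m : ℂ) ≠ 0 := by exact_mod_cast hm0
  have hβ := beta_int4 K A x y θ hint hθ' m hm0 r c d hr1 hr2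
  have hb : ∀ i, IsIntegral ℤ ((![1, θ, θ ^ 2, (θ ^ 3 + r * θ ^ 2 + (r ^ 2 - 6 * x) * θ +
      (r ^ 3 - 6 * x * r - 8 * y)) / m] : Fin 4 → K) i) := by
    intro i
    fin_cases i
    · exact isIntegral_one
    · exact hint
    · exact hint.pow 2
    · exact hβ
  have hdetv : (Matrix.of fun i j => e i ((![1, θ, θ ^ 2, (θ ^ 3 + r * θ ^ 2 +
      (r ^ 2 - 6 * x) * θ + (r ^ 3 - 6 * x * r - 8 * y)) / m] : Fin 4 → K) j)).det =
      (e 1 θ - e 0 θ) * (e 2 θ - e 0 θ) * (e 3 θ - e 0 θ) * (e 2 θ - e 1 θ) * (e 3 θ - e 1 θ) *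
        (e 3 θ - e 2 θ) / m := by
    rw [Matrix.det_succ_row_zero]
    simp only [Matrix.det_fin_three, Fin.sum_univ_four]
    simp only [Matrix.of_apply, Matrix.submatrix_apply, Fin.succAbove, Matrix.cons_val_zero,
      Matrix.cons_val_one, Matrix.cons_val, map_one, map_div₀, map_natCast, map_sub, map_add,
      map_mul, map_pow, map_intCast, map_ofNat]
    simp [Fin.succAbove, Fin.lt_def]
    have o6 : ∀ i, (e i) (6 : K) = 6 := fun i => map_ofNat _ 6
    have o8 : ∀ i, (e i) (8 : K) = 8 := fun i => map_ofNat _ 8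
    simp only [o6, o8]
    field_simp
    ring
  have hne : ∀ i j : Fin 4, i ≠ j → e i θ - e j θ ≠ 0 := fun i j hij h =>
    hij (hinj (sub_eq_zero.1 h))
  have hle := disc_basis K 4 e _ hb (by
    rw [hdetv]
    refine div_ne_zero (mul_ne_zero (mul_ne_zero (mul_ne_zero (mul_ne_zero (mul_ne_zero ?_ ?_) ?_)
      ?_) ?_) ?_) hmC
    all_goals exact hne _ _ (by decide))
  rw [hdetv] at hle
  have hnod := Pool.Agent.LibST91.map_eq_nodal 4 (SQ55.gq A x y) hmon hdegf (fun i => e i θ) hinj (by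
    intro i
    rw [SQ55.gq_aeval]
    have h1 := congrArg (e i) hθ'
    simp only [map_add, map_sub, map_mul, map_pow, map_ofNat, map_intCast, map_zero] at h1
    exact h1)
  have hT : ∀ T : ℂ, T ^ 4 - (6 * x) * T ^ 2 - (8 * y) * T - (3 * x ^ 2 + 4 * A) =
      (T - e 0 θ) * (T - e 1 θ) * (T - e 2 θ) * (T - e 3 θ) := by
    intro T
    have h1 := congrArg (eval T) hnod
    rw [Lagrange.eval_nodal, Fin.prod_univ_four, eval_map_algebraMap, SQ55.gq_aeval] at h1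
    rw [← h1]
    ring
  obtain ⟨v1, v2, v3, v4⟩ := SQ55.vieta4 hT
  have hEC : (y : ℂ) ^ 2 = (x : ℂ) ^ 3 + A * x + B := by exact_mod_cast hE
  have key := vdm4 (e 0 θ) (e 1 θ) (e 2 θ) (e 3 θ) x y A B v1 v2 v3 v4 hEC
  rw [← norm_pow, div_pow, key] at hle
  have hkc : -(4096 * (4 * (A : ℂ) ^ 3 + 27 * (B : ℂ) ^ 2)) =
      ((-(4096 * (4 * A ^ 3 + 27 * B ^ 2)) : ℤ) : ℂ) := by push_cast; ring
  rw [hkc, norm_div, Complex.norm_intCast, norm_pow, Complex.norm_intCast] at hle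
  have hmR : (0 : ℝ) < |(m : ℝ)| ^ 2 := by
    have : (m : ℝ) ≠ 0 := by exact_mod_cast hm0
    positivity
  rw [le_div_iff₀ hmR, sq_abs] at hle
  calc (m : ℝ) ^ 2 * |(discr K : ℝ)| = |(discr K : ℝ)| * (m : ℝ) ^ 2 := by ring
    _ ≤ |((-(4096 * (4 * A ^ 3 + 27 * B ^ 2)) : ℤ) : ℝ)| := hle
    _ = 4096 * |((4 * A ^ 3 + 27 * B ^ 2 : ℤ) : ℝ)| := by
      push_cast
      rw [abs_neg, abs_mul, abs_of_pos (by norm_num : (0 : ℝ) < 4096)]

end Pool.Agent.LibRC21
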