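import Pool.Agent.LibSQ55.Q5
import Pool.Agent.LibRC21A.A4
import Pool.Agent.LibRC21A.A5

/-!
The bound for the large points with the discriminant of the quartic field (after LibSQ55.Q5).
-/

set_option autoImplicit false

open NumberField Polynomial

namespace Pool.Agent.LibRC21

open Pool.Agent.LibST91 SQ55

/-- The large points: the bound with the discriminant of the field. -/
theorem weier_bigK (hX : MainX 4 9) : ∃ C : ℝ, 0 ≤ C ∧ ∃ κ : ℕ, ∀ (A B x y : ℤ) (R r L : ℝ),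
    R = 1 + |(A : ℝ)| + |(B : ℝ)| → L = Real.log (2 + |(A : ℝ)| + |(B : ℝ)|) → 0 ≤ r →
    r ^ 2 = (x : ℝ) → 100 * R ^ 2 ≤ r → 0 ≤ y → y ^ 2 = x ^ 3 + A * x + B →
    4 * A ^ 3 + 27 * B ^ 2 ≠ 0 →
    ∃ (K : Type) (_ : Field K) (_ : NumberField K), Module.finrank ℚ K = 4 ∧
      Irreducible ((gq A x y).map (algebraMap ℤ ℚ)) ∧ (∃ θ : K, aeval θ (gq A x y) = 0) ∧
      Real.log r ≤ C * (√|(discr K : ℝ)| * L ^ κ) := by
  obtain ⟨C0, hC0, κ, hmain⟩ := hX
  obtain ⟨C1, hC1, hit⟩ := log_iter κ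
  obtain ⟨c1, hc1⟩ : ∃ c1 : ℝ, c1 = 4000 + C0 * 13312 * 2 ^ κ := ⟨_, rfl⟩
  have hc14 : 4000 ≤ c1 := by
    rw [hc1]
    have : 0 ≤ C0 * 13312 * 2 ^ κ := by positivity
    linarith
  obtain ⟨c2, hc2⟩ : ∃ c2 : ℝ, c2 = Real.log c1 + 12 := ⟨_, rfl⟩
  have hlc1 : 0 ≤ Real.log c1 := Real.log_nonneg (by linarith)
  have hc20 : 0 ≤ c2 := by rw [hc2]; linarith
  refine ⟨C1 * (c1 * c2 ^ κ), by positivity, κ + 2, ?_⟩
  intro A B x y R r L hR hL hr0 hrx h4 hy hE hΔ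
  obtain ⟨hR2, hL1, hlogR, hd1, hld⟩ := basic hR hL hΔ
  obtain ⟨K, iK, iN, η, σ, τ, e1, e2, e3, hCR, hfr, hη, hirr, ⟨θ, hθ⟩, hnorm, hall, hne, hle⟩ :=
    big_data4 hR hrx h4 hy hE hΔ
  refine ⟨K, iK, iN, hfr, hirr, ⟨θ, hθ⟩, ?_⟩
  have hdK := discr_quart K A B x y 1 hE one_ne_zero (by simp) isCoprime_one_left hirr hfr θ hθ
  rw [Int.cast_one, one_pow, one_mul] at hdK
  obtain ⟨F, iF, iN', ι, c, ℓ, hfF, hc, hadm⟩ := adm_ratio hCR hΔ hL
  obtain ⟨d, hd⟩ : ∃ d, d = |((4 * A ^ 3 + 27 * B ^ 2 : ℤ) : ℝ)| := ⟨_, rfl⟩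
  rw [← hd] at hd1 hld hdK hnorm
  have hd0 : 0 < d := by linarith
  have hlog2 := Real.log_two_lt_d9
  have hr400 : 400 ≤ r := by nlinarith
  have hrpos : 0 < r := by linarith
  obtain ⟨X, hXd⟩ : ∃ X, X = Real.log r := ⟨_, rfl⟩
  have hl5 : Real.log 5 ≤ 3 * Real.log 2 := by
    have h9 : Real.log 5 ≤ Real.log (2 ^ 3) := Real.log_le_log (by norm_num) (by norm_num)
    rw [Real.log_pow] at h9
    push_cast at h9
    exact h9
  have hX5 : 5 ≤ X := by
    rw [hXd]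
    have h1 : Real.log (2 ^ 8) ≤ Real.log r := Real.log_le_log (by norm_num) (by
      have : (2 : ℝ) ^ 8 = 256 := by norm_num
      rw [this]
      linarith)
    rw [Real.log_pow] at h1
    push_cast at h1
    have := Real.log_two_gt_d9
    linarith
  obtain ⟨Hh, hHh⟩ : ∃ Hh, Hh = 3 * Real.log (5 * r) := ⟨_, rfl⟩
  have hHh1 : Hh = 3 * (Real.log 5 + X) := by
    rw [hHh, Real.log_mul (by norm_num) hrpos.ne', hXd]
  have hl50 : 0 ≤ Real.log 5 := Real.log_nonneg (by norm_num)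
  have hH1 : 1 ≤ Hh := by rw [hHh1]; linarith
  have hH6 : Hh ≤ 6 * X := by rw [hHh1]; linarith
  rw [← hHh] at hall
  have hm := hmain K hfr.le F hfF η hη σ τ ι c ℓ (13 * L) hadm Hh hH1 hall (by
    rw [hc]
    exact hne)
  rw [hc] at hm
  have hm2 := hm.trans hle
  obtain ⟨D, hD⟩ : ∃ D, D = |(discr K : ℝ)| := ⟨_, rfl⟩
  rw [← hD] at hdK hm2 ⊢
  rw [hnorm] at hm2
  have hD1 : 1 ≤ D := by
    rw [hD]
    have := Int.one_le_abs (discr_ne_zero K)
    exact_mod_cast this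
  obtain ⟨ν, hν⟩ : ∃ ν, ν = 1 + Real.log (4096 * d) := ⟨_, rfl⟩
  rw [← hν] at hm2
  have hν1 : 1 ≤ ν := by
    rw [hν]
    have := Real.log_nonneg (show (1 : ℝ) ≤ 4096 * d by linarith)
    linarith
  have hν16 : ν ≤ 16 * L := by
    rw [hν, Real.log_mul (by norm_num) hd0.ne']
    have h9 : Real.log 4096 = 12 * Real.log 2 := by
      rw [show (4096 : ℝ) = 2 ^ 12 by norm_num, Real.log_pow]
      push_cast
      ring
    rw [h9]
    linarith
  -- the exponent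
  obtain ⟨Arg, hArg⟩ : ∃ Arg, Arg = 3 * D * ν * (13 * L) * Hh := ⟨_, rfl⟩
  rw [← hArg] at hm2
  have hX1 : 1 ≤ X := by linarith
  have hL0 : 0 < L := by linarith
  have hArg1 : 1 ≤ Arg := by
    rw [hArg]
    have q1 : 1 ≤ 3 * D := by linarith
    have q2 : 1 ≤ 3 * D * ν := one_le_mul_of_one_le_of_one_le q1 hν1
    have q3 : 1 ≤ 13 * L := by linarith
    exact one_le_mul_of_one_le_of_one_le (one_le_mul_of_one_le_of_one_le q2 q3) hH1
  obtain ⟨A', hA'⟩ : ∃ A', A' = c1 * (√D * L ^ 2) := ⟨_, rfl⟩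
  have hD0 : 0 < D := by linarith
  have hsd : 1 ≤ √D := Real.one_le_sqrt.2 hD1
  have hsd2 : √D ^ 2 = D := Real.sq_sqrt hD0.le
  have hL2 : 1 ≤ L ^ 2 := one_le_pow₀ hL1
  have hA'1 : 4000 ≤ A' := by
    rw [hA']
    have : 1 ≤ √D * L ^ 2 := one_le_mul_of_one_le_of_one_le hsd hL2
    nlinarith
  have hArg2 : Arg ≤ (A' * X) ^ 2 := by
    have q1 : Arg ≤ 3 * (4096 * D) * (16 * L) * (13 * L) * (6 * X) := by
      have hDD : D ≤ 4096 * D := by linarith
      rw [hArg]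
      gcongr
    have q2 : 3 * (4096 * D) * (16 * L) * (13 * L) * (6 * X) = 15335424 * (D * L ^ 2 * X) := by
      ring
    have q3 : (A' * X) ^ 2 = c1 ^ 2 * (√D ^ 2 * L ^ 2 * X) * (L ^ 2 * X) := by
      rw [hA']
      ring
    rw [hsd2] at q3
    have q4 : (15335424 : ℝ) ≤ c1 ^ 2 := by nlinarith
    have q5 : 1 ≤ L ^ 2 * X := one_le_mul_of_one_le_of_one_le hL2 hX1
    rw [q2] at q1
    rw [q3]
    calc Arg ≤ 15335424 * (D * L ^ 2 * X) * 1 := by linarith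
      _ ≤ c1 ^ 2 * (D * L ^ 2 * X) * (L ^ 2 * X) := by gcongr
  have hAX1 : 1 ≤ A' * X := by nlinarith
  have hlogArg : Real.log Arg ≤ 2 * Real.log (A' * X) := by
    have := Real.log_le_log (by linarith) hArg2
    rw [Real.log_pow] at this
    exact_mod_cast this
  have hlogArg0 : 0 ≤ Real.log Arg := Real.log_nonneg hArg1
  have hlAX : 0 ≤ Real.log (A' * X) := Real.log_nonneg hAX1
  have hsD : √D ≤ 64 * √D := by linarith
  have hXle : X ≤ A' * Real.log (A' * X) ^ κ := by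
    have h1 : X ≤ C0 * (√D * ν * (13 * L) * Real.log Arg ^ κ) := by
      have h2 := Real.log_le_log (Real.exp_pos _) hm2
      rw [Real.log_exp, one_div, Real.log_inv, ← hXd] at h2
      linarith
    calc X ≤ C0 * (√D * ν * (13 * L) * Real.log Arg ^ κ) := h1
      _ ≤ C0 * ((64 * √D) * (16 * L) * (13 * L) * (2 * Real.log (A' * X)) ^ κ) := by gcongr
      _ = C0 * 13312 * 2 ^ κ * (√D * L ^ 2) * Real.log (A' * X) ^ κ := by
          rw [mul_pow]
          ring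
      _ ≤ c1 * (√D * L ^ 2) * Real.log (A' * X) ^ κ := by
          have : C0 * 13312 * 2 ^ κ ≤ c1 := by rw [hc1]; linarith
          gcongr
      _ = A' * Real.log (A' * X) ^ κ := by rw [hA']
  have hfin := hit A' X (by linarith) hX1 hXle
  have hlogA' : Real.log A' ≤ c2 * L := by
    rw [hA', Real.log_mul (by positivity) (by positivity), Real.log_mul (by positivity)
      (by positivity), Real.log_pow, Real.log_sqrt hD0.le]
    have h0 : Real.log D ≤ 12 * Real.log 2 + Real.log d := by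
      have h1 := Real.log_le_log hD0 hdK
      rw [Real.log_mul (by norm_num) hd0.ne', show (4096 : ℝ) = 2 ^ 12 by norm_num,
        Real.log_pow] at h1
      exact_mod_cast h1
    have h1 : Real.log L ≤ L := (Real.log_le_sub_one_of_pos hL0).trans (by linarith)
    have h2 : Real.log c1 ≤ Real.log c1 * L := le_mul_of_one_le_right hlc1 hL1
    push_cast
    rw [hc2]
    linarith
  have hlogA'0 : 0 ≤ Real.log A' := Real.log_nonneg (by linarith)
  calc Real.log r = X := hXd.symm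
    _ ≤ C1 * (A' * Real.log A' ^ κ) := hfin
    _ ≤ C1 * (A' * (c2 * L) ^ κ) := by
        have : 0 ≤ A' := by linarith
        gcongr
    _ = C1 * (c1 * c2 ^ κ) * (√D * L ^ (κ + 2)) := by
        rw [hA', mul_pow]
        ring

end Pool.Agent.LibRC21
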